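import Pool.Agent.H537ES.Digraph
import Pool.Agent.Helper408.Final

set_option autoImplicit false

namespace H537ES

open Finset

/-- Burr's conjecture for antidirected trees. -/
theorem burr_antidirected (k n : ℕ) (D : Fin n → Fin n → Prop) (hk : 1 ≤ k)
    (hor : ∀ x y, D x y → ¬ D y x)
    (hchi : ((2 * k : ℕ) : ℕ∞) ≤ (SimpleGraph.fromRel D).chromaticNumber)
    (A : Fin (k + 1) → Fin (k + 1) → Prop)
    (hA : (SimpleGraph.fromRel A).IsTree) (hanti : ∀ a b c, A a b → ¬ A b c) :
    ∃ f : Fin (k + 1) → Fin n, Function.Injective f ∧ ∀ a b, A a b → D (f a) (f b) := by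
  classical
  set G := SimpleGraph.fromRel D with hG
  have hloop : ∀ v, ¬ D v v := fun v h => hor v v h h
  have hadj : ∀ a b, G.Adj a b ↔ (D a b ∨ D b a) := by
    intro a b
    rw [hG, SimpleGraph.fromRel_adj]
    constructor
    · exact fun h => h.2
    · intro h
      refine ⟨?_, h⟩
      rintro rfl
      rcases h with h | h <;> exact hloop _ h
  have hnc : ¬ G.Colorable (2 * k - 2 + 1) := by
    intro hc
    have h1 := hc.chromaticNumber_le
    have h2 := hchi.trans h1
    have h3 : 2 * k ≤ 2 * k - 2 + 1 := by exact_mod_cast h2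
    omega
  obtain ⟨S, hS, hdeg⟩ : ∃ S : Finset (Fin n), S.Nonempty ∧
      ∀ v ∈ S, 2 * k - 1 ≤ (S.filter (fun w => G.Adj v w)).card := by
    by_contra hno
    push Not at hno
    apply hnc
    apply Pool.Agent.Helper408.Final.colorable_of_degenerate
    intro S hS
    obtain ⟨v, hv, h⟩ := hno S hS
    exact ⟨v, hv, by omega⟩
  -- out-degrees and in-degrees inside `S`
  have hsplit : ∀ v ∈ S, (S.filter (fun w => G.Adj v w)).card =
      (S.filter (fun w => D v w)).card + (S.filter (fun w => D w v)).card := by
    intro v _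
    rw [← Finset.card_union_of_disjoint]
    · congr 1
      ext w
      simp only [Finset.mem_union, Finset.mem_filter, hadj]
      tauto
    · rw [Finset.disjoint_left]
      intro w h1 h2
      rw [Finset.mem_filter] at h1 h2
      exact hor _ _ h1.2 h2.2
  have hswap : ∑ v ∈ S, (S.filter (fun w => D w v)).card = ∑ v ∈ S, (S.filter (fun w => D v w)).card := by
    simp only [Finset.card_filter]
    exact Finset.sum_comm
  have hlow : S.card * (2 * k - 1) ≤ 2 * ∑ v ∈ S, (S.filter (fun w => D v w)).card := by
    have h1 : S.card * (2 * k - 1) ≤ ∑ v ∈ S, (S.filter (fun w => G.Adj v w)).card := by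
      rw [← smul_eq_mul]
      exact Finset.card_nsmul_le_sum S _ _ hdeg
    rw [Finset.sum_congr rfl hsplit, Finset.sum_add_distrib, hswap] at h1
    omega
  have hcount : ∀ v : S, Nat.card {w : S // D v w} = (S.filter (fun w => D v w)).card := by
    intro v
    rw [Nat.card_eq_fintype_card, Fintype.card_subtype]
    refine Finset.card_bij (fun e _ => (e : Fin n)) ?_ ?_ ?_
    · intro e he
      simp only [Finset.mem_filter, Finset.mem_univ, true_and] at he ⊢
      exact ⟨e.2, he⟩
    · intro a _ b _ hab
      exact Subtype.ext hab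
    · intro b hb
      rw [Finset.mem_filter] at hb
      exact ⟨⟨b, hb.1⟩, by simpa using hb.2, rfl⟩
  have hSpos : 0 < S.card := Finset.card_pos.mpr hS
  have hlt : (k - 1) * Fintype.card S < ∑ v : S, Nat.card {w : S // D v w} := by
    have e0 : ∑ v : S, Nat.card {w : S // D v w} = ∑ v ∈ S, (S.filter (fun w => D v w)).card := by
      rw [← Finset.sum_coe_sort S (fun v => (S.filter (fun w => D v w)).card)]
      exact Finset.sum_congr rfl fun v _ => hcount v
    rw [e0, Fintype.card_coe]
    obtain ⟨m, rfl⟩ : ∃ m, k = m + 1 := ⟨k - 1, by omega⟩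
    have e1 : 2 * (m + 1) - 1 = 2 * m + 1 := by omega
    have e2 : m + 1 - 1 = m := by omega
    rw [e1] at hlow
    rw [e2]
    nlinarith
  obtain ⟨f, hf, h⟩ := digraph_tree (V := S) (fun a b => D a b) (fun v => hloop v) A
    (fun a b hab => hanti a b a hab) hA (Or.inl hanti) k (by simp) hlt
  exact ⟨fun a => f a, Subtype.val_injective.comp hf, h⟩

end H537ES
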