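import Pool.Agent.Helper903.ES.Main

set_option autoImplicit false

/-!
# Weighted, typed version of helper903's Erdős–Sós argument

Host relations `R a b u v` may depend on the two tree vertices `a` (parent) and `b` (child);
the weight `wt a u` of a vertex `u` in the role of `a` has to satisfy
`wt a u ≤ #{v | R a b u v} + 1` and `#{u | R a b u v} + 1 ≤ wt b v` along all tree edges.
-/

namespace H537ES

open Finset ES903

variable {V W : Type*} [DecidableEq V]

def PlantR (r : V → V → Prop) (p : V → Finset V → Prop) (u : V) (S : Finset V) : Prop :=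
  ∃ v, v ∈ S ∧ r u v ∧ p v (S.erase u)

def EmbR (R : W → W → V → V → Prop) : RT W → V → Finset V → Prop
  | .node _, _, _ => True
  | .graft A B, u, S => comp (PlantR (R B.root A.root) (EmbR R A) u) (EmbR R B u) S

open Classical in
theorem plantR [Fintype V] (r : V → V → Prop)
    (p q : V → Finset V → Prop)
    (hp : ∀ v S T, S ⊆ T → p v S → p v T) (hq : ∀ v S T, S ⊆ T → q v S → q v T)
    (h : ∀ u v S, r u v → p v (S.erase u) → q u (insert v S)) :
    ∑ u, (((univ.filter (fun v => r u v)).card : ℚ) + 1) * E univ (Fail (q u)) ≤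
      ∑ v, (((univ.filter (fun u => r u v)).card : ℚ) + 1) * E univ (Fail (p v)) +
        (Fintype.card V : ℚ) * ((Fintype.card V : ℚ) + 1) := by
  have harc : ∑ u, ∑ v ∈ univ.filter (fun v => r u v), E univ (fun S => Fail (q u) (insert v S)) ≤
      ∑ v, ∑ u ∈ univ.filter (fun u => r u v), E univ (fun S => Fail (p v) (S.erase u)) := by
    have : ∑ v, ∑ u ∈ univ.filter (fun u => r u v), E univ (fun S => Fail (p v) (S.erase u)) =
      ∑ u, ∑ v ∈ univ.filter (fun v => r u v), E univ (fun S => Fail (p v) (S.erase u)) := by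
      apply Finset.sum_comm'
      intro x y
      simp
    rw [this]
    apply Finset.sum_le_sum
    intro u _
    apply Finset.sum_le_sum
    intro v hv
    apply E_mono
    intro S _
    apply Fail_mono
    intro hh
    exact h u v S (by simpa using hv) hh
  have hL : ∀ u, (((univ.filter (fun v => r u v)).card : ℚ) + 1) * E univ (Fail (q u))
        - ((Fintype.card V : ℚ) + 1) ≤
      ∑ v ∈ univ.filter (fun v => r u v), E univ (fun S => Fail (q u) (insert v S)) := by
    intro u
    have e1 := E_up (univ : Finset V) (Fail (q u))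
    have e2 : ∑ v ∈ univ.filter (fun v => r u v), (E univ (Fail (q u)) -
        E univ (fun S => Fail (q u) (insert v S))) ≤
        ∑ v ∈ (univ : Finset V), (E univ (Fail (q u)) -
          E univ (fun S => Fail (q u) (insert v S))) := by
      apply Finset.sum_le_sum_of_subset_of_nonneg (Finset.subset_univ _)
      intro x _ _
      have : E univ (fun S => Fail (q u) (insert x S)) ≤ E univ (Fail (q u)) := by
        apply E_mono
        intro S _
        apply Fail_mono
        exact hq u S _ (Finset.subset_insert _ _)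
      linarith
    rw [e1, Finset.sum_sub_distrib, Finset.sum_const,
      nsmul_eq_mul, Finset.card_univ] at e2
    have e3 := Fail_le_one (q u) ∅
    have e4 : (0:ℚ) ≤ (Fintype.card V : ℚ) + 1 := by positivity
    nlinarith
  have hR : ∀ v, ∑ u ∈ univ.filter (fun u => r u v), E univ (fun S => Fail (p v) (S.erase u)) ≤
      (((univ.filter (fun u => r u v)).card : ℚ) + 1) * E univ (Fail (p v)) := by
    intro v
    have e1 := E_down (univ : Finset V) (Fail (p v))
    have e2 : ∑ u ∈ univ.filter (fun u => r u v), (E univ (fun S => Fail (p v) (S.erase u)) -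
        E univ (Fail (p v))) ≤
        ∑ u ∈ (univ : Finset V), (E univ (fun S => Fail (p v) (S.erase u)) -
        E univ (Fail (p v))) := by
      apply Finset.sum_le_sum_of_subset_of_nonneg (Finset.subset_univ _)
      intro x _ _
      have : E univ (Fail (p v)) ≤ E univ (fun S => Fail (p v) (S.erase x)) := by
        apply E_mono
        intro S _
        apply Fail_mono
        exact hp v _ _ (Finset.erase_subset _ _)
      linarith
    rw [e1, Finset.sum_sub_distrib, Finset.sum_const,
      nsmul_eq_mul, Finset.card_univ] at e2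
    have e3 := Fail_nonneg (p v) univ
    have e4 : (0:ℚ) ≤ (Fintype.card V : ℚ) + 1 := by positivity
    nlinarith [mul_nonneg e4 e3]
  have s1 := Finset.sum_le_sum (s := (univ : Finset V)) (fun u _ => hL u)
  have s2 := Finset.sum_le_sum (s := (univ : Finset V)) (fun v _ => hR v)
  rw [Finset.sum_sub_distrib, Finset.sum_const, nsmul_eq_mul, Finset.card_univ] at s1
  linarith

theorem PlantR_mono {r : V → V → Prop} {p : V → Finset V → Prop}
    (hp : ∀ v S T, S ⊆ T → p v S → p v T) (u : V) (S T : Finset V) (h : S ⊆ T)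
    (hc : PlantR r p u S) : PlantR r p u T := by
  obtain ⟨v, h1, h2, h3⟩ := hc
  exact ⟨v, h h1, h2, hp _ _ _ (Finset.erase_subset_erase _ h) h3⟩

theorem EmbR_mono (R : W → W → V → V → Prop) (t : RT W) : ∀ (u : V) (S T : Finset V), S ⊆ T →
    EmbR R t u S → EmbR R t u T := by
  induction t with
  | node w => intro u S T _ _; trivial
  | graft A B _ ihB =>
    intro u S T h hS
    exact RT.comp_mono (ihB u) S T h hS

open Classical in
theorem costR [Fintype V] (R : W → W → V → V → Prop) (wt : W → V → ℚ)
    (h0 : ∀ a u, 0 ≤ wt a u) (t : RT W) :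
    (∀ a b, t.Edge a b → (∀ u, wt a u ≤ ((univ.filter (fun v => R a b u v)).card : ℚ) + 1) ∧
      (∀ v, ((univ.filter (fun u => R a b u v)).card : ℚ) + 1 ≤ wt b v)) →
    ∑ u, wt t.root u * E univ (Fail (EmbR R t u)) ≤
      (t.size : ℚ) * ((Fintype.card V : ℚ) * ((Fintype.card V : ℚ) + 1)) := by
  induction t with
  | node w =>
    intro _
    have : ∀ u, E univ (Fail (EmbR R (RT.node w : RT W) u)) = 0 := by
      intro u
      simp [E, Fail, EmbR]
    simp [this, RT.size]
  | graft A B ihA ihB =>
    intro hw
    have hA := ihA (fun a b hab => hw a b (Or.inl hab))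
    have hB := ihB (fun a b hab => hw a b (Or.inr (Or.inl hab)))
    obtain ⟨hw1, hw2⟩ := hw B.root A.root (Or.inr (Or.inr ⟨rfl, rfl⟩))
    have h1 := plantR (R B.root A.root) (EmbR R A) (PlantR (R B.root A.root) (EmbR R A))
      (EmbR_mono R A) (PlantR_mono (EmbR_mono R A)) (by
        intro u v S huv hE
        refine ⟨v, Finset.mem_insert_self _ _, huv, EmbR_mono R A v _ _ ?_ hE⟩
        exact Finset.erase_subset_erase _ (Finset.subset_insert _ _))
    have hE : ∀ (f : Finset V → Prop), 0 ≤ E univ (Fail f) := fun f => E_nonneg _ (Fail_nonneg f)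
    have h2 : ∑ u, wt B.root u * E univ (Fail (EmbR R (RT.graft A B) u)) ≤
        ∑ u, (((univ.filter (fun v => R B.root A.root u v)).card : ℚ) + 1) *
          E univ (Fail (PlantR (R B.root A.root) (EmbR R A) u)) +
        ∑ u, wt B.root u * E univ (Fail (EmbR R B u)) := by
      rw [← Finset.sum_add_distrib]
      apply Finset.sum_le_sum
      intro u _
      have g1 := glue (univ : Finset V) (PlantR (R B.root A.root) (EmbR R A) u) (EmbR R B u)
      have g2 : wt B.root u * E univ (Fail (EmbR R (RT.graft A B) u)) ≤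
        wt B.root u * (E univ (Fail (PlantR (R B.root A.root) (EmbR R A) u)) +
          E univ (Fail (EmbR R B u))) := mul_le_mul_of_nonneg_left g1 (h0 _ _)
      have g3 := mul_le_mul_of_nonneg_right (hw1 u)
        (hE (PlantR (R B.root A.root) (EmbR R A) u))
      linarith
    have h3 : ∑ v, (((univ.filter (fun u => R B.root A.root u v)).card : ℚ) + 1) *
        E univ (Fail (EmbR R A v)) ≤ ∑ v, wt A.root v * E univ (Fail (EmbR R A v)) := by
      apply Finset.sum_le_sum
      intro v _
      exact mul_le_mul_of_nonneg_right (hw2 v) (hE _)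
    have h4 : ((RT.graft A B).size : ℚ) = A.size + B.size + 1 := by simp [RT.size]
    have h5 : (RT.graft A B).root = B.root := rfl
    rw [h4, h5]
    linarith

/-- extraction of an injective map -/
theorem extractR [DecidableEq W] (R : W → W → V → V → Prop) (hR : ∀ a b u, ¬ R a b u u) (t : RT W)
    (ht : t.Good) (u : V) (S : Finset V) (h : EmbR R t u S) :
    ∃ f : W → V, f t.root = u ∧ (∀ w ∈ t.verts, w ≠ t.root → f w ∈ S ∧ f w ≠ u) ∧
      Set.InjOn f t.verts ∧ (∀ a b, t.Edge a b → R a b (f a) (f b)) := by
  induction t generalizing u S with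
  | node w =>
    refine ⟨fun _ => u, rfl, ?_, ?_, ?_⟩
    · intro x hx hne
      exact absurd (Finset.mem_singleton.mp hx) hne
    · intro x hx y hy _
      have hx' : x = w := Finset.mem_singleton.mp (by exact_mod_cast hx)
      have hy' : y = w := Finset.mem_singleton.mp (by exact_mod_cast hy)
      rw [hx', hy']
    · intro a b hab
      exact hab.elim
  | graft A B ihA ihB =>
    obtain ⟨hgA, hgB, hdis⟩ := ht
    obtain ⟨S1, hS1, ⟨v, hv, hadj, hA⟩, hB⟩ := h
    obtain ⟨fA, hA1, hA2, hA3, hA4⟩ := ihA hgA v (S1.erase u) hA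
    obtain ⟨fB, hB1, hB2, hB3, hB4⟩ := ihB hgB u (S \ S1) hB
    have hBA : ∀ w ∈ B.verts, w ∉ A.verts := fun w hw hwA =>
      (Finset.disjoint_left.mp hdis) hwA hw
    have hrA := RT.extract_root_mem A
    have hrB := RT.extract_root_mem B
    have hvu : v ≠ u := fun h => by
      rw [h] at hadj
      exact hR _ _ u hadj
    have hfA : ∀ w ∈ A.verts, fA w ∈ S1 ∧ fA w ≠ u := by
      intro w hw
      by_cases hwr : w = A.root
      · rw [hwr, hA1]
        exact ⟨hv, hvu⟩
      · have := (hA2 w hw hwr).1
        exact ⟨Finset.mem_of_mem_erase this, Finset.ne_of_mem_erase this⟩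
    have hfB : ∀ w ∈ B.verts, fB w = u ∨ fB w ∉ S1 := by
      intro w hw
      by_cases hwr : w = B.root
      · left; rw [hwr, hB1]
      · right
        exact (Finset.mem_sdiff.mp (hB2 w hw hwr).1).2
    have hcross : ∀ a ∈ A.verts, ∀ b ∈ B.verts, fA a ≠ fB b := by
      intro a ha b hb he
      rcases hfB b hb with h1 | h1
      · exact (hfA a ha).2 (he.trans h1)
      · exact h1 (he ▸ (hfA a ha).1)
    refine ⟨fun w => if w ∈ A.verts then fA w else fB w, ?_, ?_, ?_, ?_⟩
    · show (if B.root ∈ A.verts then fA B.root else fB B.root) = u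
      rw [if_neg (hBA _ hrB), hB1]
    · intro w hw hwr
      show (if w ∈ A.verts then fA w else fB w) ∈ S ∧ (if w ∈ A.verts then fA w else fB w) ≠ u
      rcases Finset.mem_union.mp hw with hw1 | hw1
      · rw [if_pos hw1]
        exact ⟨hS1 (hfA w hw1).1, (hfA w hw1).2⟩
      · rw [if_neg (hBA w hw1)]
        have h1 := hB2 w hw1 hwr
        exact ⟨(Finset.mem_sdiff.mp h1.1).1, h1.2⟩
    · intro a ha b hb hab
      have ha' : a ∈ A.verts ∪ B.verts := by exact_mod_cast ha
      have hb' : b ∈ A.verts ∪ B.verts := by exact_mod_cast hb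
      have hab' : (if a ∈ A.verts then fA a else fB a) = (if b ∈ A.verts then fA b else fB b) := hab
      rcases Finset.mem_union.mp ha' with ha1 | ha1
      · rcases Finset.mem_union.mp hb' with hb1 | hb1
        · rw [if_pos ha1, if_pos hb1] at hab'
          exact hA3 (by exact_mod_cast ha1) (by exact_mod_cast hb1) hab'
        · rw [if_pos ha1, if_neg (hBA b hb1)] at hab'
          exact absurd hab' (hcross a ha1 b hb1)
      · rcases Finset.mem_union.mp hb' with hb1 | hb1
        · rw [if_neg (hBA a ha1), if_pos hb1] at hab'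
          exact absurd hab'.symm (hcross b hb1 a ha1)
        · rw [if_neg (hBA a ha1), if_neg (hBA b hb1)] at hab'
          exact hB3 (by exact_mod_cast ha1) (by exact_mod_cast hb1) hab'
    · intro a b hab
      show R a b (if a ∈ A.verts then fA a else fB a) (if b ∈ A.verts then fA b else fB b)
      rcases hab with h1 | h1 | ⟨h1, h2⟩
      · have h3 := RT.extract_edge_mem A a b h1
        rw [if_pos h3.1, if_pos h3.2]
        exact hA4 a b h1
      · have h3 := RT.extract_edge_mem B a b h1
        rw [if_neg (hBA a h3.1), if_neg (hBA b h3.2)]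
        exact hB4 a b h1
      · rw [h1, h2, if_neg (hBA _ hrB), if_pos hrA, hA1, hB1]
        exact hadj

open Classical in
/-- The typed weighted Erdős–Sós theorem. -/
theorem embed [Fintype V] [DecidableEq W] (R : W → W → V → V → Prop) (hR : ∀ a b u, ¬ R a b u u)
    (wt : W → V → ℚ) (h0 : ∀ a u, 0 ≤ wt a u) (t : RT W) (ht : t.Good)
    (hw : ∀ a b, t.Edge a b → (∀ u, wt a u ≤ ((univ.filter (fun v => R a b u v)).card : ℚ) + 1) ∧
      (∀ v, ((univ.filter (fun u => R a b u v)).card : ℚ) + 1 ≤ wt b v))
    (hsum : (t.size : ℚ) * (Fintype.card V : ℚ) < ∑ u, wt t.root u) :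
    ∃ f : W → V, Set.InjOn f t.verts ∧ ∀ a b, t.Edge a b → R a b (f a) (f b) := by
  by_contra hcon
  have hno : ∀ u S, ¬ EmbR R t u S := by
    intro u S hS
    obtain ⟨f, -, -, h1, h2⟩ := extractR R hR t ht u S hS
    exact hcon ⟨f, h1, h2⟩
  have hall : ∀ u, E univ (Fail (EmbR R t u)) = (Fintype.card V : ℚ) + 1 := by
    intro u
    have : Fail (EmbR R t u) = fun _ => 1 := by
      funext S
      simp [Fail, hno u S]
    rw [this, E_one, Finset.card_univ]
  have hc := costR R wt h0 t hw
  simp only [hall] at hc
  rw [← Finset.sum_mul] at hc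
  have hn : (0:ℚ) < (Fintype.card V : ℚ) + 1 := by positivity
  rw [← mul_assoc] at hc
  have hc2 := le_of_mul_le_mul_right hc hn
  linarith

end H537ES
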