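import Pool.Agent.Helper903.ES.Main

set_option autoImplicit false

namespace H537ES

open Finset ES903

variable {W : Type*}

theorem rmap_edge_inv {W' : Type*} (f : W → W') (t : RT W) (x y : W')
    (h : (t.rmap f).Edge x y) : ∃ a b, x = f a ∧ y = f b ∧ t.Edge a b := by
  induction t with
  | node w => exact h.elim
  | graft A B ihA ihB =>
    rcases h with h | h | ⟨h1, h2⟩
    · obtain ⟨a, b, h1, h2, h3⟩ := ihA h
      exact ⟨a, b, h1, h2, Or.inl h3⟩
    · obtain ⟨a, b, h1, h2, h3⟩ := ihB h
      exact ⟨a, b, h1, h2, Or.inr (Or.inl h3)⟩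
    · refine ⟨B.root, A.root, ?_, ?_, Or.inr (Or.inr ⟨rfl, rfl⟩)⟩
      · rw [h1, RT.rmap_root]
      · rw [h2, RT.rmap_root]

theorem addLeaf_edge_inv [DecidableEq W] (p w : W) (t : RT W) (hp : p ∈ t.verts) (a b : W)
    (h : (t.addLeaf p w).Edge a b) : t.Edge a b ∨ (a = p ∧ b = w) := by
  induction t with
  | node r =>
    have hpr : p = r := by simpa [RT.verts] using hp
    subst hpr
    rcases h with h | h | ⟨h1, h2⟩
    · exact h.elim
    · exact h.elim
    · exact Or.inr ⟨h1, h2⟩
  | graft A B ihA ihB =>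
    rw [RT.addLeaf] at h
    split_ifs at h with h1 h2
    · rcases h with h | h | ⟨h3, h4⟩
      · exact h.elim
      · exact Or.inl h
      · exact Or.inr ⟨h3.trans h1.symm, h4⟩
    · rcases h with h | h | ⟨h3, h4⟩
      · rcases ihA h2 h with h | h
        · exact Or.inl (Or.inl h)
        · exact Or.inr h
      · exact Or.inl (Or.inr (Or.inl h))
      · rw [RT.addLeaf_root] at h4
        exact Or.inl (Or.inr (Or.inr ⟨h3, h4⟩))
    · have hpB : p ∈ B.verts := by
        rcases Finset.mem_union.1 hp with h | h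
        · exact absurd h h2
        · exact h
      rcases h with h | h | ⟨h3, h4⟩
      · exact Or.inl (Or.inl h)
      · rcases ihB hpB h with h | h
        · exact Or.inl (Or.inr (Or.inl h))
        · exact Or.inr h
      · rw [RT.addLeaf_root] at h3
        exact Or.inl (Or.inr (Or.inr ⟨h3, h4⟩))

theorem exists_RT_aux' (n : ℕ) : ∀ {W : Type*} [Fintype W] [DecidableEq W] (T : SimpleGraph W)
    (_ : T.IsTree) (_ : Fintype.card W = n + 1),
    ∃ t : RT W, t.Good ∧ t.verts = Finset.univ ∧
      (∀ a b, T.Adj a b → t.Edge a b ∨ t.Edge b a) ∧ (∀ a b, t.Edge a b → T.Adj a b) ∧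
      t.size + 1 = Fintype.card W := by
  induction n with
  | zero =>
    intro W _ _ T hT hc
    obtain ⟨w, hw⟩ := Fintype.card_eq_one_iff.1 (by simpa using hc)
    refine ⟨RT.node w, trivial, ?_, ?_, ?_, ?_⟩
    · ext x; simp [RT.verts, hw x]
    · intro a b hab
      exact absurd ((hw a).trans (hw b).symm) hab.ne
    · intro a b hab
      exact hab.elim
    · simp [RT.size, hc]
  | succ n ih =>
    intro W _ _ T hT hc
    classical
    have : Nontrivial W := Fintype.one_lt_card_iff_nontrivial.1 (by omega)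
    obtain ⟨v, hv⟩ := hT.exists_vert_degree_one_of_nontrivial
    have hconn := hT.connected.induce_compl_singleton_of_degree_eq_one hv
    have hac := hT.isAcyclic.induce ({v}ᶜ : Set W)
    obtain ⟨p, hvp, hup⟩ := SimpleGraph.degree_eq_one_iff_existsUnique_adj.mp hv
    have hcard : Fintype.card ({v}ᶜ : Set W) = n + 1 := by
      rw [Fintype.card_compl_set]
      simp [hc]
    obtain ⟨t, hg, hvt, he, he', hs⟩ := ih (T.induce ({v}ᶜ : Set W)) ⟨hconn, hac⟩ hcard
    have hverts : (t.rmap (Subtype.val : ({v}ᶜ : Set W) → W)).verts = Finset.univ.erase v := by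
      rw [RT.rmap_verts, hvt]
      ext x
      simp
    have hpm : p ∈ (t.rmap (Subtype.val : ({v}ᶜ : Set W) → W)).verts := by
      rw [hverts]
      simp [hvp.ne']
    refine ⟨(t.rmap (Subtype.val : ({v}ᶜ : Set W) → W)).addLeaf p v, ?_, ?_, ?_, ?_, ?_⟩
    · apply RT.addLeaf_good
      · exact RT.rmap_good _ Subtype.val_injective _ hg
      · rw [hverts]; simp
    · rw [RT.addLeaf_verts, hverts]
      ext x
      by_cases hx : x = v <;> simp [hx]
    · intro a b hab
      have hnew : ((t.rmap (Subtype.val : ({v}ᶜ : Set W) → W)).addLeaf p v).Edge p v :=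
        RT.addLeaf_edge_new _ _ _ hpm
      by_cases ha : a = v
      · subst ha
        have := hup b hab
        subst this
        exact Or.inr hnew
      · by_cases hb : b = v
        · subst hb
          have := hup a hab.symm
          subst this
          exact Or.inl hnew
        · rcases he ⟨a, ha⟩ ⟨b, hb⟩ hab with h | h
          · exact Or.inl (RT.addLeaf_edge_old _ _ _ _ _ (RT.rmap_edge Subtype.val _ _ _ h))
          · exact Or.inr (RT.addLeaf_edge_old _ _ _ _ _ (RT.rmap_edge Subtype.val _ _ _ h))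
    · intro a b hab
      rcases addLeaf_edge_inv p v _ hpm a b hab with h | ⟨h1, h2⟩
      · obtain ⟨a', b', h1, h2, h3⟩ := rmap_edge_inv _ _ _ _ h
        rw [h1, h2]
        exact he' a' b' h3
      · rw [h1, h2]
        exact hvp.symm
    · rw [RT.addLeaf_size, RT.rmap_size, hs, hcard, hc]

theorem exists_RT' {W : Type*} [Fintype W] [DecidableEq W] (T : SimpleGraph W) (hT : T.IsTree) :
    ∃ t : RT W, t.Good ∧ t.verts = Finset.univ ∧
      (∀ a b, T.Adj a b → t.Edge a b ∨ t.Edge b a) ∧ (∀ a b, t.Edge a b → T.Adj a b) ∧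
      t.size + 1 = Fintype.card W := by
  have := hT.connected.nonempty
  have hpos : 0 < Fintype.card W := Fintype.card_pos
  exact exists_RT_aux' (Fintype.card W - 1) T hT (by omega)

end H537ES
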