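import Pool.Agent.H537ES.Core
import Pool.Agent.H537ES.Exist

set_option autoImplicit false

namespace H537ES

open Finset ES903

def Rel2 {V W : Type*} (D : V → V → Prop) (A : W → W → Prop) : W → W → V → V → Prop :=
  fun a b u v => (A a b ∧ D u v) ∨ (A b a ∧ D v u)

open Classical in
noncomputable def wt2 {V W : Type*} [Fintype V] (D : V → V → Prop) (A : W → W → Prop) : W → V → ℚ :=
  fun a u =>
    if ∃ b, A a b then ((univ.filter (fun w => D u w)).card : ℚ) + 1
    else ((univ.filter (fun w => D w u)).card : ℚ) + 1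

open Classical in
theorem wt2_hyp {V W : Type*} [Fintype V]
    (D : V → V → Prop)
    (A : W → W → Prop) (hA : ∀ a b, A a b → ¬ A b a)
    (hE : (∀ a b c, A a b → ¬ A b c) ∨
      (∀ v, (univ.filter (fun w => D v w)).card = (univ.filter (fun w => D w v)).card))
    (a b : W) (hab : A a b ∨ A b a) :
      (∀ u, wt2 D A a u ≤ ((univ.filter (fun v => Rel2 D A a b u v)).card : ℚ) + 1) ∧
      (∀ v, ((univ.filter (fun u => Rel2 D A a b u v)).card : ℚ) + 1 ≤ wt2 D A b v) := by
  have hsrc : ∀ a b, A a b → ∀ u, wt2 D A a u = ((univ.filter (fun w => D u w)).card : ℚ) + 1 := by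
    intro a b hab u
    rw [wt2, if_pos ⟨b, hab⟩]
  have hsnk : ∀ a b, A a b → ∀ u, wt2 D A b u = ((univ.filter (fun w => D w u)).card : ℚ) + 1 := by
    intro a b hab u
    rw [wt2]
    split_ifs with hc
    · obtain ⟨c, hc⟩ := hc
      rcases hE with hE | hE
      · exact absurd hc (hE a b c hab)
      · rw [hE u]
    · rfl
  have hfwd : ∀ a b, A a b → ∀ u v, Rel2 D A a b u v ↔ D u v := by
    intro a b hab u v
    rw [Rel2]
    constructor
    · rintro (⟨-, h⟩ | ⟨h, -⟩)
      · exact h
      · exact absurd h (hA a b hab)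
    · intro h; exact Or.inl ⟨hab, h⟩
  have hbwd : ∀ a b, A b a → ∀ u v, Rel2 D A a b u v ↔ D v u := by
    intro a b hab u v
    rw [Rel2]
    constructor
    · rintro (⟨h, -⟩ | ⟨-, h⟩)
      · exact absurd h (hA b a hab)
      · exact h
    · intro h; exact Or.inr ⟨hab, h⟩
  rcases hab with h | h
  · refine ⟨fun u => ?_, fun v => ?_⟩
    · rw [hsrc a b h u]
      simp only [hfwd a b h]
      exact le_rfl
    · rw [hsnk a b h v]
      simp only [hfwd a b h]
      exact le_rfl
  · refine ⟨fun u => ?_, fun v => ?_⟩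
    · rw [hsnk b a h u]
      simp only [hbwd a b h]
      exact le_rfl
    · rw [hsrc b a h v]
      simp only [hbwd a b h]
      exact le_rfl

open Classical in
theorem wt2_sum {V W : Type*} [Fintype V] (D : V → V → Prop) (A : W → W → Prop) (a : W) :
    ∑ u, wt2 D A a u = ((∑ v, (univ.filter (fun w => D v w)).card : ℕ) : ℚ) +
        Fintype.card V := by
  have hswap : ∑ v, (univ.filter (fun w => D w v)).card = ∑ v, (univ.filter (fun w => D v w)).card := by
    simp only [Finset.card_filter]
    exact Finset.sum_comm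
  unfold wt2
  split_ifs
  · rw [Finset.sum_add_distrib]
    simp
  · rw [Finset.sum_add_distrib, ← hswap]
    simp

theorem digraph_tree_aux {V W : Type*} [Fintype V] [DecidableEq V] [Fintype W] [DecidableEq W]
    (R : W → W → V → V → Prop) (hR : ∀ a b u, ¬ R a b u u)
    (wt : W → V → ℚ) (h0 : ∀ a u, 0 ≤ wt a u) (G : SimpleGraph W) (hG : G.IsTree)
    (hw : ∀ a b, G.Adj a b → (∀ u, wt a u ≤ (Nat.card {v : V // R a b u v} : ℚ) + 1) ∧
      (∀ v, (Nat.card {u : V // R a b u v} : ℚ) + 1 ≤ wt b v))
    (k : ℕ) (hW : Fintype.card W = k + 1)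
    (hsum : ∀ a, (k : ℚ) * (Fintype.card V : ℚ) < ∑ u, wt a u) :
    ∃ f : W → V, Function.Injective f ∧ ∀ a b, G.Adj a b → R a b (f a) (f b) ∨ R b a (f b) (f a) := by
  classical
  obtain ⟨t, h1, h2, h3, h4, h5⟩ := exists_RT' G hG
  have hk : t.size = k := by omega
  have hc1 : ∀ a b u, (Nat.card {v : V // R a b u v} : ℚ) =
      ((univ.filter (fun v => R a b u v)).card : ℚ) := by
    intro a b u
    rw [Nat.card_eq_fintype_card, Fintype.card_subtype]
  have hc2 : ∀ a b v, (Nat.card {u : V // R a b u v} : ℚ) =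
      ((univ.filter (fun u => R a b u v)).card : ℚ) := by
    intro a b u
    rw [Nat.card_eq_fintype_card, Fintype.card_subtype]
  obtain ⟨f, hf1, hf2⟩ := embed R hR wt h0 t h1 (by
    intro a b hab
    obtain ⟨g1, g2⟩ := hw a b (h4 a b hab)
    refine ⟨fun u => ?_, fun v => ?_⟩
    · have := g1 u
      rw [hc1] at this
      convert this using 3
    · have := g2 v
      rw [hc2] at this
      convert this using 3) (by rw [hk]; exact hsum _)
  rw [h2, Finset.coe_univ, Set.injOn_univ] at hf1
  refine ⟨f, hf1, fun a b hab => ?_⟩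
  rcases h3 a b hab with h | h
  · exact Or.inl (hf2 a b h)
  · exact Or.inr (hf2 b a h)


/-- Every digraph on `n` vertices with more than `(k-1) n` arcs contains every antidirected tree
with `k` arcs; an Eulerian digraph with more than `(k-1) n` arcs contains every oriented tree with
`k` arcs. -/
theorem digraph_tree {V W : Type*} [Fintype V] [Fintype W]
    (D : V → V → Prop) (hD : ∀ v, ¬ D v v)
    (A : W → W → Prop) (hA : ∀ a b, A a b → ¬ A b a)
    (hT : (SimpleGraph.fromRel A).IsTree)
    (hE : (∀ a b c, A a b → ¬ A b c) ∨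
      (∀ v, Nat.card {w : V // D v w} = Nat.card {w : V // D w v}))
    (k : ℕ) (hW : Fintype.card W = k + 1)
    (hm : (k - 1) * Fintype.card V < ∑ v, Nat.card {w : V // D v w}) :
    ∃ f : W → V, Function.Injective f ∧ ∀ a b, A a b → D (f a) (f b) := by
  classical
  have hc1 : ∀ v, Nat.card {w : V // D v w} = (univ.filter (fun w => D v w)).card := by
    intro v
    rw [Nat.card_eq_fintype_card, Fintype.card_subtype]
  have hc2 : ∀ v, Nat.card {w : V // D w v} = (univ.filter (fun w => D w v)).card := by
    intro v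
    rw [Nat.card_eq_fintype_card, Fintype.card_subtype]
  have hE' : (∀ a b c, A a b → ¬ A b c) ∨
      (∀ v, (univ.filter (fun w => D v w)).card = (univ.filter (fun w => D w v)).card) := by
    rcases hE with hE | hE
    · exact Or.inl hE
    · right
      intro v
      rw [← hc1, ← hc2]
      exact hE v
  have hm' : (k - 1) * Fintype.card V < ∑ v, (univ.filter (fun w => D v w)).card := by
    simpa only [hc1] using hm
  have hsum : ∀ a, (k : ℚ) * (Fintype.card V : ℚ) < ∑ u, wt2 D A a u := by
    intro a
    have e := wt2_sum D A a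
    have h2 : k * Fintype.card V < (∑ v, (univ.filter (fun w => D v w)).card) + Fintype.card V := by
      rcases Nat.eq_zero_or_pos k with h0 | h0
      · subst h0
        simp only [Nat.zero_sub, Nat.zero_mul] at hm'
        omega
      · obtain ⟨j, rfl⟩ : ∃ j, k = j + 1 := ⟨k - 1, by omega⟩
        simp only [Nat.add_sub_cancel] at hm'
        rw [add_mul, one_mul]
        omega
    have h3 : ((k * Fintype.card V : ℕ) : ℚ) <
        (((∑ v, (univ.filter (fun w => D v w)).card) + Fintype.card V : ℕ) : ℚ) := by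
      exact_mod_cast h2
    rw [Nat.cast_mul, Nat.cast_add] at h3
    have e' : ∑ u, wt2 D A a u = ((∑ v, (univ.filter (fun w => D v w)).card : ℕ) : ℚ) +
        Fintype.card V := by
      convert e
    rw [e']
    exact h3
  have h0 : ∀ a u, 0 ≤ wt2 D A a u := by
    intro a u
    unfold wt2
    split_ifs <;> positivity
  have hR : ∀ a b u, ¬ Rel2 D A a b u u := by
    rintro a b u (⟨-, h⟩ | ⟨-, h⟩) <;> exact hD u h
  obtain ⟨f, hf1, hf2⟩ := digraph_tree_aux (Rel2 D A) hR (wt2 D A) h0 (SimpleGraph.fromRel A) hT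
    (by
      intro a b hab
      rw [SimpleGraph.fromRel_adj] at hab
      obtain ⟨g1, g2⟩ := wt2_hyp D A hA (by
        rcases hE' with h | h
        · exact Or.inl h
        · right
          intro v
          have := h v
          convert this) a b hab.2
      refine ⟨fun u => ?_, fun v => ?_⟩
      · have := g1 u
        rw [Nat.card_eq_fintype_card, Fintype.card_subtype]
        convert this
      · have := g2 v
        rw [Nat.card_eq_fintype_card, Fintype.card_subtype]
        convert this) k hW hsum
  refine ⟨f, hf1, fun a b hab => ?_⟩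
  have hne : a ≠ b := fun h => hA a b hab (h ▸ hab)
  rcases hf2 a b (by rw [SimpleGraph.fromRel_adj]; exact ⟨hne, Or.inl hab⟩) with h | h
  · rcases h with ⟨-, h⟩ | ⟨h, -⟩
    · exact h
    · exact absurd h (hA a b hab)
  · rcases h with ⟨h, -⟩ | ⟨-, h⟩
    · exact absurd h (hA a b hab)
    · exact h

end H537ES
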